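import Pool.Agent.TH270.CB.Defs2

/-! Prime powers against primes for Dirichlet characters, with error terms (jobs CB-5, CB-6). -/

set_option autoImplicit false
open MeasureTheory Filter Topology Set
open scoped Classical

namespace Pool.Agent.TH787.CB

/-- the coefficient -/
noncomputable def cc (z : Nat.Primes → ℂ) (v : Nat.Primes) (k : ℕ) : ℂ :=
  z v ^ (k + 1) / ((k : ℂ) + 1)

theorem cc_norm {z : Nat.Primes → ℂ} {s : ℝ} (hz : ∀ v : Nat.Primes, ‖z v‖ ≤ ((v : ℕ) : ℝ) ^ (-s))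
    (v : Nat.Primes) (k : ℕ) : ‖cc z v k‖ ≤ ((v : ℕ) : ℝ) ^ (-(s * (k + 1))) := by
  have hv : (0 : ℝ) ≤ ((v : ℕ) : ℝ) := Nat.cast_nonneg _
  unfold cc
  have h0 : ‖((k : ℂ) + 1)‖ = (k : ℝ) + 1 := by
    have : ((k : ℂ) + 1) = (((k : ℝ) + 1 : ℝ) : ℂ) := by push_cast; rfl
    rw [this, Complex.norm_real, Real.norm_eq_abs, abs_of_pos (by positivity)]
  rw [norm_div, norm_pow, h0]
  have h1 : ‖z v‖ ^ (k + 1) ≤ ((v : ℕ) : ℝ) ^ (-(s * (k + 1))) := by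
    have : ((v : ℕ) : ℝ) ^ (-(s * (k + 1))) = (((v : ℕ) : ℝ) ^ (-s)) ^ (k + 1) := by
      rw [← Real.rpow_natCast, ← Real.rpow_mul hv]
      congr 1
      push_cast
      ring
    rw [this]
    exact pow_le_pow_left₀ (norm_nonneg _) (hz v) _
  refine (div_le_self (by positivity) ?_).trans h1
  have : (0 : ℝ) ≤ k := Nat.cast_nonneg _
  linarith

theorem dom_summable {t : ℝ} (ht : 0 < t) (j : ℕ) (hj : 1 < t * (j + 1)) :
    Summable fun p : Nat.Primes × ℕ => ((p.1 : ℕ) : ℝ) ^ (-(t * ((p.2 + j : ℕ) + 1 : ℝ))) := by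
  have h1 : Summable fun v : Nat.Primes => ((v : ℕ) : ℝ) ^ (-(t * (j + 1))) := by
    have := (Real.summable_nat_rpow (p := -(t * (j + 1)))).mpr (by linarith)
    exact this.comp_injective (i := fun v : Nat.Primes => (v : ℕ)) Subtype.coe_injective
  have h2 : Summable fun k : ℕ => ((2 : ℝ) ^ (-t)) ^ k := by
    refine summable_geometric_of_lt_one (by positivity) ?_
    exact Real.rpow_lt_one_of_one_lt_of_neg (by norm_num) (by linarith)
  refine Summable.of_nonneg_of_le (fun p => by positivity) (fun p => ?_)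
    (h1.mul_of_nonneg h2 (fun v => by positivity) (fun k => by positivity))
  have hv : (2 : ℝ) ≤ ((p.1 : ℕ) : ℝ) := by exact_mod_cast p.1.2.two_le
  have e1 : ((p.1 : ℕ) : ℝ) ^ (-(t * ((p.2 + j : ℕ) + 1 : ℝ))) =
      ((p.1 : ℕ) : ℝ) ^ (-(t * (j + 1))) * (((p.1 : ℕ) : ℝ) ^ (-t)) ^ p.2 := by
    rw [← Real.rpow_natCast, ← Real.rpow_mul (by linarith), ← Real.rpow_add (by linarith)]
    congr 1
    push_cast
    ring
  rw [e1]
  refine mul_le_mul_of_nonneg_left (pow_le_pow_left₀ (by positivity) ?_ _) (by positivity)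
  exact Real.rpow_le_rpow_of_nonpos (by norm_num) hv (by linarith)

/-- the primes up to `n` -/
noncomputable def PP (n : ℕ) : Finset Nat.Primes := Finset.subtype Nat.Prime (Finset.range (n + 1))

theorem mem_PP {n : ℕ} {v : Nat.Primes} : v ∈ PP n ↔ (v : ℕ) ≤ n := by
  unfold PP
  exact Finset.mem_subtype.trans (by rw [Finset.mem_range]; exact Nat.lt_succ_iff)

theorem sum_PP (n : ℕ) (f : ℕ → ℂ) :
    ∑ v ∈ PP n, f (v : ℕ) = ∑ p ∈ (Finset.range (n + 1)).filter Nat.Prime, f p := by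
  unfold PP
  exact Finset.sum_subtype_eq_sum_filter (s := Finset.range (n + 1)) (p := Nat.Prime) f

/-- the partial sums -/
noncomputable def TT (z : Nat.Primes → ℂ) (j m n : ℕ) : ℂ :=
  ∑ v ∈ PP n, ∑ k ∈ Finset.range m,
    if (v : ℕ) ^ (k + j + 1) ≤ n then cc z v (k + j) else 0

theorem TT_bound {z : Nat.Primes → ℂ} {s : ℝ}
    (hz : ∀ v : Nat.Primes, ‖z v‖ ≤ ((v : ℕ) : ℝ) ^ (-s)) (j : ℕ)
    (hs : 1 / 12 < s) (hj : 1 < (s - 1 / 12) * (j + 1)) :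
    ∃ (L : ℂ) (C : ℝ), ∀ n m : ℕ, 1 ≤ n → n ≤ m + j →
      ‖TT z j m n - L‖ ≤ C * (n : ℝ) ^ (-(1 / 12) : ℝ) := by
  have hd := dom_summable (t := s - 1 / 12) (by linarith) j hj
  set b : Nat.Primes × ℕ → ℝ := fun p => ((p.1 : ℕ) : ℝ) ^ (-((s - 1 / 12) * ((p.2 + j : ℕ) + 1 : ℝ)))
    with hb
  set c : Nat.Primes × ℕ → ℂ := fun p => cc z p.1 (p.2 + j) with hc
  have hcb : ∀ p, ‖c p‖ ≤ b p := by
    intro p
    refine (cc_norm hz p.1 (p.2 + j)).trans ?_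
    refine Real.rpow_le_rpow_of_exponent_le ?_ ?_
    · exact_mod_cast p.1.2.one_lt.le
    · have : (0 : ℝ) ≤ ((p.2 + j : ℕ) : ℝ) := Nat.cast_nonneg _
      nlinarith
  have hcs : Summable c := Summable.of_norm_bounded hd hcb
  refine ⟨∑' p, c p, ∑' p, b p, fun n m hn hm => ?_⟩
  have hn0 : (0 : ℝ) < n := by exact_mod_cast hn
  set A : Finset (Nat.Primes × ℕ) := (PP n ×ˢ
    Finset.range m).filter (fun p => (p.1 : ℕ) ^ (p.2 + j + 1) ≤ n) with hA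
  have hAmem : ∀ p : Nat.Primes × ℕ, p ∈ A ↔ (p.1 : ℕ) ^ (p.2 + j + 1) ≤ n := by
    intro p
    rw [hA, Finset.mem_filter, Finset.mem_product, mem_PP, Finset.mem_range]
    refine ⟨fun h => h.2, fun h => ⟨⟨?_, ?_⟩, h⟩⟩
    · have := Nat.le_self_pow (n := p.2 + j + 1) (by omega) (p.1 : ℕ)
      omega
    · have h2 : 2 ^ (p.2 + j + 1) ≤ (p.1 : ℕ) ^ (p.2 + j + 1) :=
        Nat.pow_le_pow_left p.1.2.two_le _
      have h3 : p.2 + j + 1 < 2 ^ (p.2 + j + 1) := Nat.lt_two_pow_self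
      omega
  have e1 : TT z j m n = ∑ p ∈ A, c p := by
    rw [hA, Finset.sum_filter, Finset.sum_product]
    rfl
  have e2 : ∑ p ∈ A, c p = ∑' p, if p ∈ A then c p else 0 := by
    rw [tsum_eq_sum (s := A) (fun p hp => if_neg hp)]
    exact Finset.sum_congr rfl fun p hp => (if_pos hp).symm
  have hs1 : Summable fun p => if p ∈ A then c p else 0 :=
    summable_of_ne_finset_zero (s := A) fun p hp => if_neg hp
  have hbd : ∀ p, ‖(if p ∈ A then c p else 0) - c p‖ ≤ b p * (n : ℝ) ^ (-(1 / 12) : ℝ) := by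
    intro p
    by_cases hp : p ∈ A
    · rw [if_pos hp, sub_self, norm_zero]
      positivity
    · rw [if_neg hp, zero_sub, norm_neg]
      refine (cc_norm hz p.1 (p.2 + j)).trans ?_
      have h1 : (n : ℝ) ≤ ((p.1 : ℕ) : ℝ) ^ ((p.2 + j : ℕ) + 1 : ℝ) := by
        have h2 : n < (p.1 : ℕ) ^ (p.2 + j + 1) := by
          rw [hAmem] at hp
          omega
        have h3 : ((p.1 : ℕ) : ℝ) ^ ((p.2 + j : ℕ) + 1 : ℝ) = (((p.1 : ℕ) ^ (p.2 + j + 1) : ℕ) : ℝ) := by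
          rw [show ((p.2 + j : ℕ) + 1 : ℝ) = ((p.2 + j + 1 : ℕ) : ℝ) by push_cast; ring,
            Real.rpow_natCast]
          push_cast
          rfl
        rw [h3]
        exact_mod_cast h2.le
      have hv : (0 : ℝ) < ((p.1 : ℕ) : ℝ) := by exact_mod_cast p.1.2.pos
      have h4 : (((p.1 : ℕ) : ℝ) ^ ((p.2 + j : ℕ) + 1 : ℝ)) ^ (-(1 / 12) : ℝ) ≤
          (n : ℝ) ^ (-(1 / 12) : ℝ) :=
        Real.rpow_le_rpow_of_nonpos hn0 h1 (by norm_num)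
      rw [← Real.rpow_mul hv.le] at h4
      calc ((p.1 : ℕ) : ℝ) ^ (-(s * ((p.2 + j : ℕ) + 1 : ℝ))) =
          b p * ((p.1 : ℕ) : ℝ) ^ (((p.2 + j : ℕ) + 1 : ℝ) * (-(1 / 12) : ℝ)) := by
            rw [hb]
            simp only []
            rw [← Real.rpow_add hv]
            congr 1
            ring
        _ ≤ b p * (n : ℝ) ^ (-(1 / 12) : ℝ) := mul_le_mul_of_nonneg_left h4 (by positivity)
  rw [e1, e2, ← Summable.tsum_sub hs1 hcs, ← tsum_mul_right]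
  exact tsum_of_norm_bounded (hd.mul_right _).hasSum hbd

/-- splitting off the first power -/
theorem TT_succ (z : Nat.Primes → ℂ) (j m n : ℕ) :
    TT z j (m + 1) n = TT z (j + 1) m n +
      ∑ v ∈ PP n, if (v : ℕ) ^ (j + 1) ≤ n then cc z v j else 0 := by
  unfold TT
  rw [← Finset.sum_add_distrib]
  refine Finset.sum_congr rfl fun v _ => ?_
  rw [Finset.sum_range_succ']
  congr 1
  · refine Finset.sum_congr rfl fun k _ => ?_
    rw [show k + 1 + j + 1 = k + (j + 1) + 1 by ring, show k + 1 + j = k + (j + 1) by ring]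
  · simp

end Pool.Agent.TH787.CB

namespace Pool.Agent.TH787.CB

open Pool.Agent.TH270.MC (Pc nP cC)
open Pool.Agent.TH942.ES (zv)
open Pool.Agent.TH270.CB (al al2 U Q)

theorem Pc_eq (α : Nat.Primes → Fin 1 → ℂ) (n : ℕ) :
    Pc nP α (n : ℝ) = TT (fun v => zv nP α v 0) 0 (n + 2) n := by
  set A : Finset (Nat.Primes × ℕ) :=
    (PP n ×ˢ Finset.range (n + 2)).filter (fun p => (p.1 : ℕ) ^ (p.2 + 0 + 1) ≤ n) with hA
  have hset : ∀ p : Nat.Primes × ℕ,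
      ((nP p.1 : ℝ) ^ (p.2 + 1) ≤ (n : ℝ)) = (p ∈ (↑A : Set (Nat.Primes × ℕ))) := by
    intro p
    apply propext
    rw [Finset.mem_coe, hA, Finset.mem_filter, Finset.mem_product, mem_PP, Finset.mem_range]
    have h0 : ((nP p.1 : ℝ) ^ (p.2 + 1) ≤ (n : ℝ)) ↔ (p.1 : ℕ) ^ (p.2 + 0 + 1) ≤ n := by
      unfold Pool.Agent.TH270.MC.nP
      rw [add_zero]
      exact_mod_cast Iff.rfl
    rw [h0]
    refine ⟨fun h => ⟨⟨?_, ?_⟩, h⟩, fun h => h.2⟩
    · have := Nat.le_self_pow (n := p.2 + 0 + 1) (by omega) (p.1 : ℕ)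
      omega
    · have h2 : 2 ^ (p.2 + 0 + 1) ≤ (p.1 : ℕ) ^ (p.2 + 0 + 1) :=
        Nat.pow_le_pow_left p.1.2.two_le _
      have h3 : p.2 + 0 + 1 < 2 ^ (p.2 + 0 + 1) := Nat.lt_two_pow_self
      omega
  unfold Pool.Agent.TH270.MC.Pc
  simp only [hset]
  rw [finsum_mem_coe_finset, hA, Finset.sum_filter, Finset.sum_product]
  unfold TT
  refine Finset.sum_congr rfl fun v _ => Finset.sum_congr rfl fun k _ => ?_
  refine if_congr Iff.rfl ?_ rfl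
  unfold Pool.Agent.TH270.MC.cC cc
  simp

theorem char_norm {q : ℕ} [NeZero q] (χ : DirichletCharacter ℂ q) (v : Nat.Primes) :
    ‖zv nP (al χ) v 0‖ ≤ ((v : ℕ) : ℝ) ^ (-(1 / 2 : ℝ)) := by
  unfold Pool.Agent.TH942.ES.zv Pool.Agent.TH270.CB.al Pool.Agent.TH270.MC.nP
  have hv : (0 : ℝ) < ((v : ℕ) : ℝ) := by exact_mod_cast v.2.pos
  rw [norm_div, Complex.norm_real, Real.norm_eq_abs, abs_of_nonneg (Real.sqrt_nonneg _),
    Real.rpow_neg hv.le, ← Real.sqrt_eq_rpow, div_eq_mul_inv]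
  have h1 : ‖χ (((v : ℕ) : ZMod q))‖ ≤ 1 := χ.norm_le_one _
  have h2 : (0 : ℝ) ≤ (√((v : ℕ) : ℝ))⁻¹ := by positivity
  exact (mul_le_mul_of_nonneg_right h1 h2).trans (le_of_eq (one_mul _))

theorem zv_al2 {q : ℕ} (ψ : DirichletCharacter ℂ q) (v : Nat.Primes) :
    zv nP (al2 ψ) v 0 = ψ (((v : ℕ) : ZMod q)) / ((v : ℕ) : ℂ) := by
  unfold Pool.Agent.TH942.ES.zv Pool.Agent.TH270.CB.al2 Pool.Agent.TH270.MC.nP
  have hv : (0 : ℝ) ≤ ((v : ℕ) : ℝ) := Nat.cast_nonneg _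
  rw [div_div, ← Complex.ofReal_mul, Real.mul_self_sqrt hv, Complex.ofReal_natCast]

theorem zv_al_sq {q : ℕ} (χ : DirichletCharacter ℂ q) (v : Nat.Primes) :
    zv nP (al χ) v 0 ^ 2 = (χ ^ 2) (((v : ℕ) : ZMod q)) / ((v : ℕ) : ℂ) := by
  unfold Pool.Agent.TH942.ES.zv Pool.Agent.TH270.CB.al Pool.Agent.TH270.MC.nP
  have hv : (0 : ℝ) ≤ ((v : ℕ) : ℝ) := Nat.cast_nonneg _
  rw [div_pow, ← Complex.ofReal_pow, Real.sq_sqrt hv, Complex.ofReal_natCast,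
    MulChar.pow_apply' _ two_ne_zero]

theorem char_norm2 {q : ℕ} [NeZero q] (ψ : DirichletCharacter ℂ q) (v : Nat.Primes) :
    ‖zv nP (al2 ψ) v 0‖ ≤ ((v : ℕ) : ℝ) ^ (-(1 : ℝ)) := by
  have hv : (0 : ℝ) < ((v : ℕ) : ℝ) := by exact_mod_cast v.2.pos
  rw [zv_al2, norm_div, Complex.norm_natCast, Real.rpow_neg_one, div_eq_mul_inv]
  have h1 : ‖ψ (((v : ℕ) : ZMod q))‖ ≤ 1 := ψ.norm_le_one _
  exact (mul_le_mul_of_nonneg_right h1 (inv_nonneg.mpr hv.le)).trans (le_of_eq (one_mul _))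

theorem first (z : Nat.Primes → ℂ) (n : ℕ) :
    (∑ v ∈ PP n, if (v : ℕ) ^ (0 + 1) ≤ n then cc z v 0 else 0) = ∑ v ∈ PP n, z v := by
  refine Finset.sum_congr rfl fun v hv => ?_
  rw [if_pos (by simpa using mem_PP.mp hv)]
  unfold cc
  simp


theorem pc_eq2 {q : ℕ} [NeZero q] (ψ : DirichletCharacter ℂ q) :
    ∃ (L : ℂ) (C : ℝ), ∀ n : ℕ, 1 ≤ n →
      ‖Pc nP (al2 ψ) (n : ℝ) - Q ψ n - L‖ ≤ C * (n : ℝ) ^ (-(1 / 12) : ℝ) := by
  obtain ⟨L, C, h⟩ := TT_bound (char_norm2 ψ) 1 (by norm_num) (by norm_num)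
  refine ⟨L, C, fun n hn => ?_⟩
  have h1 := h n (n + 1) hn (by omega)
  have h2 : Pc nP (al2 ψ) (n : ℝ) - Q ψ n =
      TT (fun v => Pool.Agent.TH942.ES.zv nP (al2 ψ) v 0) 1 (n + 1) n := by
    rw [Pc_eq, TT_succ, first]
    have h3 : ∑ v ∈ PP n, Pool.Agent.TH942.ES.zv nP (al2 ψ) v 0 = Q ψ n := by
      unfold Q
      rw [← sum_PP n (fun p => ψ (p : ZMod q) / (p : ℂ))]
      exact Finset.sum_congr rfl fun v _ => zv_al2 ψ v
    rw [h3, add_sub_cancel_right]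
  rw [h2]
  exact h1

theorem pc_eq3 {q : ℕ} [NeZero q] (χ : DirichletCharacter ℂ q) :
    ∃ (L : ℂ) (C : ℝ), ∀ n : ℕ, 1 ≤ n →
      ‖Pc nP (al χ) (n : ℝ) - U χ n - (1 / 2 : ℂ) * Q (χ ^ 2) (Nat.sqrt n) - L‖ ≤
        C * (n : ℝ) ^ (-(1 / 12) : ℝ) := by
  obtain ⟨L, C, h⟩ := TT_bound (char_norm χ) 2 (by norm_num) (by norm_num)
  refine ⟨L, C, fun n hn => ?_⟩
  have h1 := h n n hn (by omega)
  have h2 : Pc nP (al χ) (n : ℝ) - U χ n - (1 / 2 : ℂ) * Q (χ ^ 2) (Nat.sqrt n) =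
      TT (fun v => Pool.Agent.TH942.ES.zv nP (al χ) v 0) 2 n n := by
    rw [Pc_eq, TT_succ, TT_succ, first]
    have h3 : ∑ v ∈ PP n, Pool.Agent.TH942.ES.zv nP (al χ) v 0 = U χ n := by
      unfold U
      rw [← sum_PP n (fun p => χ (p : ZMod q) / ((√(p : ℝ) : ℝ) : ℂ))]
      exact Finset.sum_congr rfl fun v _ => rfl
    have h4 : (∑ v ∈ PP n, if (v : ℕ) ^ (1 + 1) ≤ n then
        cc (fun v => Pool.Agent.TH942.ES.zv nP (al χ) v 0) v 1 else 0) =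
        (1 / 2 : ℂ) * Q (χ ^ 2) (Nat.sqrt n) := by
      unfold Q
      rw [← sum_PP (Nat.sqrt n) (fun p => (χ ^ 2) (p : ZMod q) / (p : ℂ)), Finset.mul_sum,
        ← Finset.sum_filter]
      have h5 : (PP n).filter (fun v : Nat.Primes => (v : ℕ) ^ (1 + 1) ≤ n) = PP (Nat.sqrt n) := by
        ext v
        rw [Finset.mem_filter, mem_PP, mem_PP, Nat.le_sqrt']
        refine ⟨fun h => h.2, fun h => ⟨?_, h⟩⟩
        have := Nat.le_self_pow (n := 2) (by omega) (v : ℕ)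
        omega
      rw [h5]
      refine Finset.sum_congr rfl fun v _ => ?_
      unfold cc
      rw [zv_al_sq]
      push_cast
      ring
    rw [h3, h4]
    ring
  rw [h2]
  exact h1

end Pool.Agent.TH787.CB
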